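import Pool.Agent.H79.Upm.Correct

/-!
# Unique perfect matching for general graphs is in NC

`NC` (Pool/Agent/H79/Upm/Defs.lean) is the class of the languages decided by logspace uniform
families of Boolean circuits (fan-in at most two, gates NOT, AND, OR) of polynomial size and of
depth `O((log n) ^ k)` for some `k`. `UPM` is the set of the adjacency matrices, written as words,
of the graphs with exactly one perfect matching.

Idea of the algorithm. The only possible perfect matching `σ` is read off the parities of
determinants. For a matching `σ` that is the only one of the subgraph on the first matching
edges, the generating matrix `K` of the alternating paths satisfies
`(1 - X D + diag(β) Σ) K = 1`, where `β x = X² (D K D Σ) x x` counts the blossoms at `σ x`; this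
equation is solved by Newton iteration over `ℤ⟦X⟧`, which doubles the precision in every step
and only uses matrix products and geometric series. The next matching edge keeps uniqueness iff
certain coefficients of `K` vanish; all these tests are made in parallel.
-/

namespace Pool.Agent.Results.MP_869184_lc.GeneralUPM

open Pool.Agent.H79.Upm

/-- The unique perfect matching problem for general graphs is in `NC`. -/
theorem result : UPM ∈ NC := upm_mem_NC

end Pool.Agent.Results.MP_869184_lc.GeneralUPM
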